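import Pool.Agent.W646.Sp.Digits

/-!
`ℤ[R12, B12] = ℤ^12`, and the side conditions C1..C3 for `R12`, `B12`.
-/

set_option autoImplicit false

open Matrix

namespace Pool.Agent.W646.Sp

open Pool.Agent.W754.Sp

/-- C1: `R12` is expanding -/
theorem R12_expanding (z : ℂ)
    (hz : ((R12).map (Int.cast : ℤ → ℂ)).charpoly.IsRoot z) : 1 < ‖z‖ :=
  expanding nn (fun j => by have := nn_ge j; omega) z hz

/-- C2: simple digits -/
theorem B12_simple : ∀ b ∈ B12, ∀ b' ∈ B12, b ≠ b' →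
    ¬ ∃ v : Fin (6 + 6) → ℤ, R12 *ᵥ v = b - b' :=
  simple_digits nn uu_inj uu_range

/-- C3: number of digits -/
theorem B12_card : B12.card = 19440 := by
  unfold B12
  rw [card_BB uu_inj, card_PP]

theorem R12_abs_det : |R12.det| = 377913600 := by
  unfold R12
  rw [abs_det, nn_prod]
  norm_num

theorem two_le_card : 2 ≤ B12.card := by
  rw [B12_card]; norm_num

theorem card_lt_det : (B12.card : ℤ) < |R12.det| := by
  rw [R12_abs_det, B12_card]; norm_num

theorem mem_B12 (p : PP) : dg uu ff p ∈ B12 :=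
  Finset.mem_image_of_mem _ (Finset.mem_univ p)

theorem qq_zero (i : Fin 15) : qq i (fun _ => 0) = 0 := by
  unfold qq
  split_ifs <;> (funext j; fin_cases j <;> simp)

theorem zero_mem : (0 : Fin (6 + 6) → ℤ) ∈ B12 := by
  have h := mem_B12 (0, fun _ => 0)
  have e : dg uu ff (0, fun _ => 0) = 0 := by
    unfold dg
    have h1 : uu (0, fun _ => 0) = 0 := by
      funext j
      refine Fin.lastCases ?_ (fun j => ?_) j
      · rw [uu_last]; rfl
      · rw [uu_castSucc, qq_zero]; rfl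
    have h2 : ff (0, fun _ => 0) = 0 := by
      funext j
      refine Fin.lastCases ?_ (fun j => ?_) j
      · rw [ff_last]; simp [gidx, rk]
      · rw [ff_castSucc]
        simp [sidx]
    rw [h1, h2]
    funext i
    refine Fin.addCases (fun j => ?_) (fun j => ?_) i
    · rw [Fin.append_left]; rfl
    · rw [Fin.append_right]; rfl
  rwa [e] at h

/-- the module `ℤ[R12, B12]` -/
def VV : AddSubgroup (Fin (6 + 6) → ℤ) :=
  AddSubgroup.closure {v : Fin (6 + 6) → ℤ | ∃ k : ℕ, ∃ b ∈ B12, v = (R12 ^ k) *ᵥ b}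

theorem digit_mem (p : PP) : dg uu ff p ∈ VV := by
  apply AddSubgroup.subset_closure
  exact ⟨0, _, mem_B12 p, by simp⟩

theorem R_mem {v : Fin (6 + 6) → ℤ} (hv : v ∈ VV) : R12 *ᵥ v ∈ VV := by
  unfold VV at hv
  induction hv using AddSubgroup.closure_induction with
  | mem x hx =>
    obtain ⟨k, b, hb, rfl⟩ := hx
    apply AddSubgroup.subset_closure
    refine ⟨k + 1, b, hb, ?_⟩
    rw [Matrix.mulVec_mulVec, pow_succ']
  | zero => rw [Matrix.mulVec_zero]; exact VV.zero_mem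
  | add x y _ _ hx hy => rw [Matrix.mulVec_add]; exact VV.add_mem hx hy
  | neg x _ hx => rw [Matrix.mulVec_neg]; exact VV.neg_mem hx

/-- the linear map `F` -/
def FF (x : Fin 6 → ℤ) : Fin 6 → ℤ :=
  ![x 5, 0, 0, 0, 0, 15 * (x 1 + 6 * x 2 + 36 * x 3 + 216 * x 4)]

theorem FF_add (x y : Fin 6 → ℤ) : FF (x + y) = FF x + FF y := by
  funext j
  fin_cases j <;> simp [FF]
  ring

theorem append_add (x y x' y' : Fin 6 → ℤ) :
    Fin.append (x + x') (y + y') = Fin.append x y + Fin.append x' y' := by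
  funext i
  refine Fin.addCases (fun j => ?_) (fun j => ?_) i
  · rw [Pi.add_apply, Fin.append_left, Fin.append_left, Fin.append_left]; rfl
  · rw [Pi.add_apply, Fin.append_right, Fin.append_right, Fin.append_right]; rfl

/-- `x ↦ (x, F x)` -/
def hom : (Fin 6 → ℤ) →+ (Fin (6 + 6) → ℤ) :=
  AddMonoidHom.mk' (fun x => Fin.append x (FF x)) (fun x y => by
    simp only [FF_add]
    rw [append_add])

/-- all `x` with `(x, F x)` in the module -/
def WW : AddSubgroup (Fin 6 → ℤ) := VV.comap hom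

theorem mem_WW {x : Fin 6 → ℤ} : x ∈ WW ↔ Fin.append x (FF x) ∈ VV := Iff.rfl

theorem ff_eq (i : Fin 15) (hi : i = 0 ∨ i = 1) (r : Fin 4 → Fin 6) :
    ff (i, r) = FF (uu (i, r)) := by
  have hpiv : isP1 i = false := by rcases hi with rfl | rfl <;> rfl
  have hu : ∀ j : Fin 5, uu (i, r) j.castSucc = qq i r j := fun j => uu_castSucc (i, r) j
  have hu1 : uu (i, r) 1 = (r 0 : ℕ) := by
    have := hu 1
    rw [show (1 : Fin 5).castSucc = (1 : Fin 6) from rfl] at this
    rw [this, qq, if_neg (by simp [hpiv])]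
    simp
  have hu2 : uu (i, r) 2 = (r 1 : ℕ) := by
    have := hu 2
    rw [show (2 : Fin 5).castSucc = (2 : Fin 6) from rfl] at this
    rw [this, qq, if_neg (by simp [hpiv])]
    simp
  have hu3 : uu (i, r) 3 = (r 2 : ℕ) := by
    have := hu 3
    rw [show (3 : Fin 5).castSucc = (3 : Fin 6) from rfl] at this
    rw [this, qq, if_neg (by simp [hpiv])]
    simp
  have hu4 : uu (i, r) 4 = (r 3 : ℕ) := by
    have := hu 4
    rw [show (4 : Fin 5).castSucc = (4 : Fin 6) from rfl] at this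
    rw [this, qq, if_neg (by simp [hpiv])]
    simp
  have hu5 : uu (i, r) 5 = ((i : ℕ) : ℤ) := uu_last (i, r)
  have hlt : (i : ℕ) < 12 := by rcases hi with rfl | rfl <;> simp
  have hs : sidx (i, r) = (i : ℕ) := by
    unfold sidx
    rw [if_pos hlt]
    rcases hi with rfl | rfl <;> rfl
  have hg : gidx (i, r) = rk r := by
    unfold gidx
    rw [if_pos hlt]
    rcases hi with rfl | rfl <;> simp
  funext j
  refine Fin.lastCases ?_ (fun j => ?_) j
  · rw [ff_last, hg]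
    unfold FF
    rw [hu1, hu2, hu3, hu4]
    simp [rk]
  · rw [ff_castSucc, hs]
    unfold FF
    rw [hu5]
    rcases hi with rfl | rfl <;> fin_cases j <;> simp

theorem uu_mem_WW (i : Fin 15) (hi : i = 0 ∨ i = 1) (r : Fin 4 → Fin 6) : uu (i, r) ∈ WW := by
  rw [mem_WW, ← ff_eq i hi r]
  exact digit_mem (i, r)

theorem w6 : (![0, 0, 0, 0, 0, 1] : Fin 6 → ℤ) ∈ WW := by
  have h := uu_mem_WW 1 (Or.inr rfl) ![0, 0, 0, 0]
  have e : uu (1, ![0, 0, 0, 0]) = ![0, 0, 0, 0, 0, 1] := by decide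
  rwa [e] at h

theorem w15 : (![1, 0, 0, 0, 1, 0] : Fin 6 → ℤ) ∈ WW := by
  have h := uu_mem_WW 0 (Or.inl rfl) ![0, 0, 0, 1]
  have e : uu (0, ![0, 0, 0, 1]) = ![1, 0, 0, 0, 1, 0] := by decide
  rwa [e] at h

theorem w14 : (![2, 0, 0, 1, 0, 0] : Fin 6 → ℤ) ∈ WW := by
  have h := uu_mem_WW 0 (Or.inl rfl) ![0, 0, 1, 0]
  have e : uu (0, ![0, 0, 1, 0]) = ![2, 0, 0, 1, 0, 0] := by decide
  rwa [e] at h

theorem w13 : (![3, 0, 1, 0, 0, 0] : Fin 6 → ℤ) ∈ WW := by
  have h := uu_mem_WW 0 (Or.inl rfl) ![0, 1, 0, 0]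
  have e : uu (0, ![0, 1, 0, 0]) = ![3, 0, 1, 0, 0, 0] := by decide
  rwa [e] at h

theorem w12 : (![4, 1, 0, 0, 0, 0] : Fin 6 → ℤ) ∈ WW := by
  have h := uu_mem_WW 0 (Or.inl rfl) ![1, 0, 0, 0]
  have e : uu (0, ![1, 0, 0, 0]) = ![4, 1, 0, 0, 0, 0] := by decide
  rwa [e] at h

theorem w123 : (![1, 1, 1, 0, 0, 0] : Fin 6 → ℤ) ∈ WW := by
  have h := uu_mem_WW 0 (Or.inl rfl) ![1, 1, 0, 0]
  have e : uu (0, ![1, 1, 0, 0]) = ![1, 1, 1, 0, 0, 0] := by decide
  rwa [e] at h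

theorem w236 : (![0, 1, 1, 0, 0, 1] : Fin 6 → ℤ) ∈ WW := by
  have h := uu_mem_WW 1 (Or.inr rfl) ![1, 1, 0, 0]
  have e : uu (1, ![1, 1, 0, 0]) = ![0, 1, 1, 0, 0, 1] := by decide
  rwa [e] at h

theorem WW_top (x : Fin 6 → ℤ) : x ∈ WW := by
  have e1 : (![1, 0, 0, 0, 0, 0] : Fin 6 → ℤ) ∈ WW := by
    have := WW.add_mem (WW.sub_mem w123 w236) w6
    convert this using 1
    funext j; fin_cases j <;> simp
  have e5 : (![0, 0, 0, 0, 1, 0] : Fin 6 → ℤ) ∈ WW := by
    have := WW.sub_mem w15 e1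
    convert this using 1
    funext j; fin_cases j <;> simp
  have e4 : (![0, 0, 0, 1, 0, 0] : Fin 6 → ℤ) ∈ WW := by
    have := WW.sub_mem w14 (WW.zsmul_mem e1 2)
    convert this using 1
    funext j; fin_cases j <;> simp
  have e3 : (![0, 0, 1, 0, 0, 0] : Fin 6 → ℤ) ∈ WW := by
    have := WW.sub_mem w13 (WW.zsmul_mem e1 3)
    convert this using 1
    funext j; fin_cases j <;> simp
  have e2 : (![0, 1, 0, 0, 0, 0] : Fin 6 → ℤ) ∈ WW := by
    have := WW.sub_mem w12 (WW.zsmul_mem e1 4)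
    convert this using 1
    funext j; fin_cases j <;> simp
  have h := WW.add_mem (WW.add_mem (WW.add_mem (WW.zsmul_mem e1 (x 0)) (WW.zsmul_mem e2 (x 1)))
    (WW.add_mem (WW.zsmul_mem e3 (x 2)) (WW.zsmul_mem e4 (x 3))))
    (WW.add_mem (WW.zsmul_mem e5 (x 4)) (WW.zsmul_mem w6 (x 5)))
  convert h using 1
  funext j
  fin_cases j <;> simp

theorem R12_append (x y : Fin 6 → ℤ) :
    R12 *ᵥ (Fin.append x y) = Fin.append (fun j => nn j * y j) x := RR_mulVec_append nn x y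

theorem sub_mem (x : Fin 6 → ℤ) :
    Fin.append (x - fun j => nn j * FF (FF x) j) 0 ∈ VV := by
  have h1 : Fin.append x (FF x) ∈ VV := WW_top x
  have h2 : Fin.append (FF x) (FF (FF x)) ∈ VV := WW_top (FF x)
  have h3 := R_mem h2
  rw [R12_append] at h3
  have h4 := VV.sub_mem h1 h3
  convert h4 using 1
  funext i
  refine Fin.addCases (fun j => ?_) (fun j => ?_) i
  · rw [Pi.sub_apply, Fin.append_left, Fin.append_left, Fin.append_left]; rfl
  · rw [Pi.sub_apply, Fin.append_right, Fin.append_right, Fin.append_right]; simp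

theorem e1_mem : Fin.append (![1, 0, 0, 0, 0, 0] : Fin 6 → ℤ) 0 ∈ VV := by
  have h := sub_mem ![1, 0, 0, 0, 0, 0]
  convert h using 1
  congr 1
  funext j
  fin_cases j <;> simp [FF]

theorem left_mem (x : Fin 6 → ℤ) : Fin.append x 0 ∈ VV := by
  have h1 := sub_mem x
  have h2 := VV.zsmul_mem e1_mem (90 * (x 1 + 6 * x 2 + 36 * x 3 + 216 * x 4))
  have h3 := VV.add_mem h1 h2
  convert h3 using 1
  funext i
  refine Fin.addCases (fun j => ?_) (fun j => ?_) i
  · rw [Pi.add_apply, Pi.smul_apply, Fin.append_left, Fin.append_left, Fin.append_left]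
    fin_cases j <;> simp [FF, nn]
    ring
  · rw [Pi.add_apply, Pi.smul_apply, Fin.append_right, Fin.append_right, Fin.append_right]
    simp

/-- C4 -/
theorem closure_eq_top :
    AddSubgroup.closure {v : Fin (6 + 6) → ℤ | ∃ k : ℕ, ∃ b ∈ B12, v = (R12 ^ k) *ᵥ b} = ⊤ := by
  rw [eq_top_iff]
  intro v _
  show v ∈ VV
  have h1 := left_mem (fun j => v (Fin.castAdd 6 j))
  have h2 := R_mem (left_mem (fun j => v (Fin.natAdd 6 j)))
  rw [R12_append] at h2
  have h3 := VV.add_mem h1 h2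
  convert h3 using 1
  funext i
  refine Fin.addCases (fun j => ?_) (fun j => ?_) i
  · rw [Pi.add_apply, Fin.append_left, Fin.append_left]; simp
  · rw [Pi.add_apply, Fin.append_right, Fin.append_right]; simp

end Pool.Agent.W646.Sp
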