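import Pool.Agent.W646.Sp.Closure
import Pool.Agent.W488.Sp.Main

/-!
Assembly: from the statement that `B12` is not part of a Hadamard triple for `R12`.
-/

set_option autoImplicit false

open MeasureTheory Matrix
open scoped ENNReal Real

namespace Pool.Agent.W646.Sp

open Pool.Agent.W754.Sp

/-- SPEC-A for `R12`, `B12`. -/
theorem exists_spectral :
    ∃ μ : Measure (Fin (6 + 6) → ℝ), IsProbabilityMeasure μ ∧
      μ = ((B12.card : ℝ≥0∞)⁻¹) • ∑ b ∈ B12,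
        μ.map (fun x => (R12.map (Int.cast : ℤ → ℝ))⁻¹ *ᵥ (x + fun i => (b i : ℝ))) ∧
      (∃ Λ : Set (Fin (6 + 6) → ℝ),
        (∀ l ∈ Λ, ∀ l' ∈ Λ,
          (l = l' → ∫ x, Complex.exp (2 * π * Complex.I * ((∑ i, (l i - l' i) * x i : ℝ) : ℂ)) ∂μ = 1) ∧
          (l ≠ l' → ∫ x, Complex.exp (2 * π * Complex.I * ((∑ i, (l i - l' i) * x i : ℝ) : ℂ)) ∂μ = 0)) ∧
        (∀ f : (Fin (6 + 6) → ℝ) → ℂ, MemLp f 2 μ →
          (∀ l ∈ Λ, ∫ x, f x * Complex.exp (-(2 * π * Complex.I * ((∑ i, l i * x i : ℝ) : ℂ))) ∂μ = 0) →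
          f =ᵐ[μ] 0)) := by
  have hB : B12 = BB uu ff := rfl
  have hR : R12 = RR nn := rfl
  rw [hB, hR]
  clear hB hR
  have hn : ∀ j, 3 ≤ nn j := fun j => by have := nn_ge j; omega
  have hi := uu_inj
  have hr := range
  have hb := bij
  generalize nn = n at hn hr hb ⊢
  generalize uu = u at hi hr hb ⊢
  generalize ff = f at hr hb ⊢
  exact Pool.Agent.W488.SpecA.exists_spectral_measure n hn u f hi hr hb

/-- the negation, given that there is no Hadamard triple -/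
theorem negation (hB : ¬ ∃ L : Finset (Fin (6 + 6) → ℤ), L.card = B12.card ∧
      ∀ l ∈ L, ∀ l' ∈ L, l ≠ l' → ∑ b ∈ B12, Complex.exp (2 * π * Complex.I *
        ((∑ i, ((R12.map (Int.cast : ℤ → ℝ))⁻¹ *ᵥ (fun j => (b j : ℝ))) i *
          ((l i : ℝ) - (l' i : ℝ)) : ℝ) : ℂ)) = 0) :
    ¬ (∀ (d : ℕ), 1 ≤ d → ∀ (R : Matrix (Fin d) (Fin d) ℤ) (B : Finset (Fin d → ℤ)),
    (∀ z : ℂ, (R.map (Int.cast : ℤ → ℂ)).charpoly.IsRoot z → 1 < ‖z‖) →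
    (∀ b ∈ B, ∀ b' ∈ B, b ≠ b' → ¬ ∃ v : Fin d → ℤ, R *ᵥ v = b - b') →
    2 ≤ B.card → (B.card : ℤ) < |R.det| → (0 : Fin d → ℤ) ∈ B →
    AddSubgroup.closure {v : Fin d → ℤ | ∃ k : ℕ, ∃ b ∈ B, v = (R ^ k) *ᵥ b} = ⊤ →
    ∀ μ : Measure (Fin d → ℝ), IsProbabilityMeasure μ →
      μ = ((B.card : ℝ≥0∞)⁻¹) • ∑ b ∈ B,
            μ.map (fun x => (R.map (Int.cast : ℤ → ℝ))⁻¹ *ᵥ (x + fun i => (b i : ℝ))) →
      (∃ Λ : Set (Fin d → ℝ),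
        (∀ l ∈ Λ, ∀ l' ∈ Λ,
          (l = l' → ∫ x, Complex.exp (2 * π * Complex.I * ((∑ i, (l i - l' i) * x i : ℝ) : ℂ)) ∂μ = 1) ∧
          (l ≠ l' → ∫ x, Complex.exp (2 * π * Complex.I * ((∑ i, (l i - l' i) * x i : ℝ) : ℂ)) ∂μ = 0)) ∧
        (∀ f : (Fin d → ℝ) → ℂ, MemLp f 2 μ →
          (∀ l ∈ Λ, ∫ x, f x * Complex.exp (-(2 * π * Complex.I * ((∑ i, l i * x i : ℝ) : ℂ))) ∂μ = 0) →
          f =ᵐ[μ] 0)) →
      ∃ L : Finset (Fin d → ℤ), L.card = B.card ∧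
        ∀ l ∈ L, ∀ l' ∈ L,
          (l = l' → ∑ b ∈ B, Complex.exp (2 * π * Complex.I *
              ((∑ i, ((R.map (Int.cast : ℤ → ℝ))⁻¹ *ᵥ (fun j => (b j : ℝ))) i * ((l i : ℝ) - (l' i : ℝ)) : ℝ) : ℂ))
              = (B.card : ℂ)) ∧
          (l ≠ l' → ∑ b ∈ B, Complex.exp (2 * π * Complex.I *
              ((∑ i, ((R.map (Int.cast : ℤ → ℝ))⁻¹ *ᵥ (fun j => (b j : ℝ))) i * ((l i : ℝ) - (l' i : ℝ)) : ℝ) : ℂ))
              = 0)) := by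
  intro H
  obtain ⟨μ, hμ1, hμ2, hμ3⟩ := exists_spectral
  obtain ⟨L, hL, hL'⟩ := H (6 + 6) (by norm_num) R12 B12 R12_expanding B12_simple two_le_card
    card_lt_det zero_mem closure_eq_top μ hμ1 hμ2 hμ3
  exact hB ⟨L, hL, fun l hl l' hl' => (hL' l hl l' hl').2⟩

end Pool.Agent.W646.Sp
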