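import Pool.Agent.W646.Sp.General

/-!
The concrete digit set: injectivity, range and the tiling property (hypotheses of SPEC-A).
-/

set_option autoImplicit false

open Matrix

namespace Pool.Agent.W646.Sp

open Pool.Agent.W754.Sp

theorem nn_ge (j : Fin 6) : 6 ≤ nn j := by
  fin_cases j <;> simp [nn]

theorem qq_range (i : Fin 15) (r : Fin 4 → Fin 6) (j : Fin 5) :
    0 ≤ qq i r j ∧ qq i r j ≤ 5 := by
  have h0 := (r 0).isLt
  have h1 := (r 1).isLt
  have h2 := (r 2).isLt
  have h3 := (r 3).isLt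
  unfold qq
  split_ifs
  · fin_cases j <;> simp <;> omega
  · fin_cases j <;> simp <;> omega

theorem qq_inj (i : Fin 15) : Function.Injective (qq i) := by
  intro r r' h
  have key : ∀ k : Fin 4, ((r k : ℕ) : ℤ) = ((r' k : ℕ) : ℤ) := by
    unfold qq at h
    split_ifs at h with hi
    · have e0 := congrFun h 0
      have e2 := congrFun h 2
      have e3 := congrFun h 3
      have e4 := congrFun h 4
      simp at e0 e2 e3 e4
      intro k
      fin_cases k <;> simp [e0, e2, e3, e4]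
    · have e1 := congrFun h 1
      have e2 := congrFun h 2
      have e3 := congrFun h 3
      have e4 := congrFun h 4
      simp at e1 e2 e3 e4
      intro k
      fin_cases k <;> simp [e1, e2, e3, e4]
  funext k
  apply Fin.ext
  exact_mod_cast key k

theorem uu_castSucc (p : PP) (j : Fin 5) : uu p j.castSucc = qq p.1 p.2 j := by
  unfold uu
  rw [Fin.snoc_castSucc]

theorem uu_last (p : PP) : uu p (Fin.last 5) = ((p.1 : ℕ) : ℤ) := by
  unfold uu
  rw [Fin.snoc_last]

theorem ff_castSucc (p : PP) (j : Fin 5) :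
    ff p j.castSucc = if (j : ℕ) + 1 = sidx p then 1 else 0 := by
  unfold ff
  rw [Fin.snoc_castSucc]

theorem ff_last (p : PP) : ff p (Fin.last 5) = 15 * (gidx p : ℤ) := by
  unfold ff
  rw [Fin.snoc_last]

theorem uu_inj : Function.Injective uu := by
  rintro ⟨i, r⟩ ⟨i', r'⟩ h
  have h1 : i = i' := by
    have := congrFun h (Fin.last 5)
    rw [uu_last, uu_last] at this
    apply Fin.ext
    exact_mod_cast this
  subst h1
  have h2 : qq i r = qq i r' := by
    funext j
    have := congrFun h j.castSucc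
    rwa [uu_castSucc, uu_castSucc] at this
  rw [qq_inj i h2]

theorem nn_castSucc (j : Fin 5) : nn j.castSucc = 6 := by
  fin_cases j <;> rfl

theorem nn_last : nn (Fin.last 5) = 48600 := rfl

theorem uu_range (p : PP) (j : Fin 6) : 0 ≤ uu p j ∧ uu p j < nn j := by
  refine Fin.lastCases ?_ (fun j => ?_) j
  · rw [uu_last, nn_last]
    have := p.1.isLt
    omega
  · rw [uu_castSucc, nn_castSucc]
    have := qq_range p.1 p.2 j
    omega

theorem rk_lt (r : Fin 4 → Fin 6) : rk r < 1296 := by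
  have h0 := (r 0).isLt
  have h1 := (r 1).isLt
  have h2 := (r 2).isLt
  have h3 := (r 3).isLt
  unfold rk
  omega

theorem sidx_lt (p : PP) : sidx p < 6 := by
  have h0 := p.1.isLt
  have h1 := rk_lt p.2
  unfold sidx
  split_ifs <;> omega

theorem gidx_lt (p : PP) : gidx p < 3240 := by
  have h0 := p.1.isLt
  have h1 := rk_lt p.2
  unfold gidx
  split_ifs <;> omega

theorem rk_surj (k : ℕ) (hk : k < 1296) : ∃ r, rk r = k := by
  refine ⟨![⟨k % 6, by omega⟩, ⟨k / 6 % 6, by omega⟩, ⟨k / 36 % 6, by omega⟩,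
    ⟨k / 216, by omega⟩], ?_⟩
  unfold rk
  simp
  omega

theorem sg_surj (s g : ℕ) (hs : s < 6) (hg : g < 3240) : ∃ p : PP, sidx p = s ∧ gidx p = g := by
  by_cases h : g < 2592
  · obtain ⟨r, hr⟩ := rk_surj (g % 1296) (by omega)
    refine ⟨(⟨s + 6 * (g / 1296), by omega⟩, r), ?_, ?_⟩
    · unfold sidx
      rw [if_pos (by simp; omega)]
      simp
      omega
    · unfold gidx
      rw [if_pos (by simp; omega)]
      simp only [hr]
      omega
  · obtain ⟨r, hr⟩ := rk_surj (g - 2592 + 648 * (s % 2)) (by omega)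
    refine ⟨(⟨12 + s / 2, by omega⟩, r), ?_, ?_⟩
    · unfold sidx
      rw [if_neg (by simp)]
      simp only [hr]
      omega
    · unfold gidx
      rw [if_neg (by simp)]
      simp only [hr]
      omega

/-- `0 ≤ u + f ≤ n` -/
theorem range (p p' : PP) (j : Fin 6) : 0 ≤ uu p j + ff p' j ∧ uu p j + ff p' j ≤ nn j := by
  refine Fin.lastCases ?_ (fun j => ?_) j
  · rw [uu_last, ff_last, nn_last]
    have := p.1.isLt
    have := gidx_lt p'
    omega
  · rw [uu_castSucc, ff_castSucc, nn_castSucc]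
    have := qq_range p.1 p.2 j
    split_ifs <;> omega

/-- every point of the kernel of `phi i` with entries in `0..5` is a `qq i r` -/
theorem qq_surj (i : Fin 15) (q : Fin 5 → ℤ) (hq : ∀ j, 0 ≤ q j ∧ q j ≤ 5)
    (hd : (6 : ℤ) ∣ ∑ j, phi i j * q j) : ∃ r, qq i r = q := by
  have h0 := hq 0
  have h1 := hq 1
  have h2 := hq 2
  have h3 := hq 3
  have h4 := hq 4
  have tn : ∀ x : ℤ, 0 ≤ x → ((x.toNat : ℕ) : ℤ) = x := fun x hx => Int.toNat_of_nonneg hx
  rw [Fin.sum_univ_five] at hd
  by_cases hi : isP1 i = true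
  · refine ⟨![⟨(q 0).toNat, by omega⟩, ⟨(q 2).toNat, by omega⟩, ⟨(q 3).toNat, by omega⟩,
      ⟨(q 4).toNat, by omega⟩], ?_⟩
    have hi' : i = 2 ∨ i = 3 ∨ i = 4 := by
      simpa [isP1, or_assoc] using hi
    unfold qq
    rw [if_pos hi]
    funext j
    rcases hi' with rfl | rfl | rfl <;> fin_cases j <;>
      simp [phi, tn _ h0.1, tn _ h2.1, tn _ h3.1, tn _ h4.1] at hd ⊢ <;> omega
  · refine ⟨![⟨(q 1).toNat, by omega⟩, ⟨(q 2).toNat, by omega⟩, ⟨(q 3).toNat, by omega⟩,
      ⟨(q 4).toNat, by omega⟩], ?_⟩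
    unfold qq
    rw [if_neg hi]
    funext j
    fin_cases i <;> first | (exfalso; exact hi rfl) | skip
    all_goals
      fin_cases j <;>
      simp [phi, tn _ h1.1, tn _ h2.1, tn _ h3.1, tn _ h4.1] at hd ⊢ <;> omega

/-- `phi i` takes every value in `1..5` -/
theorem phi_surj (i : Fin 15) (c : ℤ) (h1 : 1 ≤ c) (h5 : c ≤ 5) : ∃ j, phi i j = c := by
  have : c = 1 ∨ c = 2 ∨ c = 3 ∨ c = 4 ∨ c = 5 := by omega
  rcases this with rfl | rfl | rfl | rfl | rfl <;> revert i <;> decide

theorem surj (z : Fin 6 → ℤ) : ∃ pp : PP × PP, ∀ j, nn j ∣ z j - (uu pp.1 j + ff pp.2 j) := by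
  have hi0 : 0 ≤ z (Fin.last 5) % 15 := by omega
  set i : Fin 15 := ⟨(z (Fin.last 5) % 15).toNat, by omega⟩ with hi
  have hiz : ((i : ℕ) : ℤ) = z (Fin.last 5) % 15 := by
    rw [hi]
    simp only
    omega
  set g : ℤ := (z (Fin.last 5) / 15) % 3240 with hg
  set c : ℤ := (∑ j : Fin 5, phi i j * z j.castSucc) % 6 with hc
  obtain ⟨s, hs6, hs⟩ : ∃ s : ℕ, s < 6 ∧ (6 : ℤ) ∣
      ∑ j : Fin 5, phi i j * (z j.castSucc - if (j : ℕ) + 1 = s then 1 else 0) := by
    have hsum : ∀ s : ℕ, ∑ j : Fin 5, phi i j * (z j.castSucc - if (j : ℕ) + 1 = s then 1 else 0) =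
        ∑ j : Fin 5, phi i j * z j.castSucc - ∑ j : Fin 5, if (j : ℕ) + 1 = s then phi i j else 0 := by
      intro s
      rw [← Finset.sum_sub_distrib]
      refine Finset.sum_congr rfl fun j _ => ?_
      split_ifs <;> ring
    by_cases hc0 : c = 0
    · refine ⟨0, by omega, ?_⟩
      rw [hsum]
      have : ∑ j : Fin 5, (if (j : ℕ) + 1 = 0 then phi i j else 0) = 0 := by
        apply Finset.sum_eq_zero
        intro j _
        rw [if_neg (by omega)]
      rw [this, sub_zero]
      exact Int.dvd_of_emod_eq_zero hc0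
    · obtain ⟨j0, hj0⟩ := phi_surj i c (by omega) (by omega)
      refine ⟨(j0 : ℕ) + 1, by omega, ?_⟩
      rw [hsum]
      have : ∑ j : Fin 5, (if (j : ℕ) + 1 = (j0 : ℕ) + 1 then phi i j else 0) = c := by
        rw [Finset.sum_eq_single j0]
        · rw [if_pos rfl, hj0]
        · intro j _ hj
          rw [if_neg]
          intro hcon
          exact hj (Fin.ext (by omega))
        · intro hcon
          exact absurd (Finset.mem_univ _) hcon
      rw [this]
      omega
  obtain ⟨p', hp's, hp'g⟩ := sg_surj s g.toNat hs6 (by omega)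
  obtain ⟨r, hr⟩ := qq_surj i
    (fun j => (z j.castSucc - if (j : ℕ) + 1 = s then 1 else 0) % 6) (fun j => by omega) (by
      have : ∀ j : Fin 5, ∃ k : ℤ, (z j.castSucc - if (j : ℕ) + 1 = s then 1 else 0) % 6 =
          (z j.castSucc - if (j : ℕ) + 1 = s then 1 else 0) + 6 * k := by
        intro j
        refine ⟨-((z j.castSucc - if (j : ℕ) + 1 = s then 1 else 0) / 6), ?_⟩
        omega
      choose k hk using this
      have e : ∑ j : Fin 5, phi i j *
          ((z j.castSucc - if (j : ℕ) + 1 = s then 1 else 0) % 6) =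
          ∑ j : Fin 5, phi i j * (z j.castSucc - if (j : ℕ) + 1 = s then 1 else 0) +
            6 * ∑ j : Fin 5, phi i j * k j := by
        rw [Finset.mul_sum, ← Finset.sum_add_distrib]
        refine Finset.sum_congr rfl fun j _ => ?_
        rw [hk j]
        ring
      rw [e]
      exact dvd_add hs (dvd_mul_right _ _))
  refine ⟨((i, r), p'), fun j => ?_⟩
  refine Fin.lastCases ?_ (fun j => ?_) j
  · rw [uu_last, ff_last, nn_last, hp'g, hiz]
    have hgn : ((g.toNat : ℕ) : ℤ) = g := Int.toNat_of_nonneg (by omega)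
    rw [hgn]
    omega
  · rw [uu_castSucc, ff_castSucc, nn_castSucc, hp's]
    simp only
    rw [hr]
    simp only
    omega

theorem nn_prod : ∏ j, nn j = 377913600 := by
  simp [nn, Fin.prod_univ_six]

theorem card_PP : Fintype.card PP = 19440 := by
  simp [PP]

instance (j : Fin 6) : NeZero (nn j).toNat := ⟨by have := nn_ge j; omega⟩

/-- the tiling property: SPEC-A hypothesis `hbij` -/
theorem bij (z : Fin 6 → ℤ) : ∃! pp : PP × PP, ∀ j, nn j ∣ z j - (uu pp.1 j + ff pp.2 j) := by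
  classical
  let Φ : PP × PP → (∀ j : Fin 6, ZMod (nn j).toNat) :=
    fun pp j => ((uu pp.1 j + ff pp.2 j : ℤ) : ZMod (nn j).toNat)
  have hnn : ∀ j, (((nn j).toNat : ℕ) : ℤ) = nn j := fun j =>
    Int.toNat_of_nonneg (by have := nn_ge j; omega)
  have hΦ : ∀ (z : Fin 6 → ℤ) (pp : PP × PP),
      Φ pp = (fun j => ((z j : ℤ) : ZMod (nn j).toNat)) ↔
        ∀ j, nn j ∣ z j - (uu pp.1 j + ff pp.2 j) := by
    intro z pp
    rw [funext_iff]
    refine forall_congr' fun j => ?_
    simp only [Φ]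
    rw [ZMod.intCast_eq_intCast_iff_dvd_sub, hnn j]
  have hsurj : Function.Surjective Φ := by
    intro y
    obtain ⟨pp, hpp⟩ := surj (fun j => ((y j).val : ℤ))
    refine ⟨pp, ?_⟩
    rw [← hΦ] at hpp
    rw [hpp]
    funext j
    simp
  have hcard : Fintype.card (PP × PP) = Fintype.card (∀ j : Fin 6, ZMod (nn j).toNat) := by
    rw [Fintype.card_prod, card_PP, Fintype.card_pi]
    simp only [ZMod.card]
    simp [nn, Fin.prod_univ_six]
  have hb : Function.Bijective Φ :=
    (Fintype.bijective_iff_surjective_and_card Φ).2 ⟨hsurj, hcard⟩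
  obtain ⟨pp, hpp⟩ := surj z
  refine ⟨pp, hpp, ?_⟩
  intro pp' hpp'
  apply hb.1
  have h1 := (hΦ z pp).2 hpp
  have h2 := (hΦ z pp').2 hpp'
  rw [h1, h2]

end Pool.Agent.W646.Sp
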