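import Pool.Agent.W754.SpDefs

/-!
General facts on the matrix `RR n : (x, y) ↦ (D y, x)` and on the digit set `BB u f`.
-/

set_option autoImplicit false

open Matrix

namespace Pool.Agent.W646.Sp

open Pool.Agent.W754.Sp

variable {m : ℕ}

theorem RR_map {α : Type*} [CommRing α] (n : Fin m → ℤ) : (RR n).map (Int.cast : ℤ → α) =
    Matrix.reindex finSumFinEquiv finSumFinEquiv
      (Matrix.fromBlocks 0 (Matrix.diagonal fun j => (n j : α)) 1 0) := by
  unfold RR
  rw [Matrix.reindex_apply, Matrix.reindex_apply, ← Matrix.submatrix_map, Matrix.fromBlocks_map]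
  congr 2
  · ext i j; simp
  · rw [Matrix.diagonal_map (by simp)]
  · ext i j; simp [Matrix.one_apply]
  · ext i j; simp

theorem RR_mulVec_left {α : Type*} [CommRing α] (n : Fin m → ℤ) (v : Fin (m + m) → α)
    (j : Fin m) :
    ((RR n).map (Int.cast : ℤ → α) *ᵥ v) (Fin.castAdd m j) = (n j : α) * v (Fin.natAdd m j) := by
  rw [RR_map, Matrix.reindex_apply, Matrix.submatrix_mulVec_equiv, Matrix.fromBlocks_mulVec,
    Function.comp_apply, finSumFinEquiv_symm_apply_castAdd, Sum.elim_inl, Pi.add_apply,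
    Matrix.mulVec_diagonal, Matrix.zero_mulVec, Pi.zero_apply, zero_add]
  simp

theorem RR_mulVec_right {α : Type*} [CommRing α] (n : Fin m → ℤ) (v : Fin (m + m) → α)
    (j : Fin m) :
    ((RR n).map (Int.cast : ℤ → α) *ᵥ v) (Fin.natAdd m j) = v (Fin.castAdd m j) := by
  rw [RR_map, Matrix.reindex_apply, Matrix.submatrix_mulVec_equiv, Matrix.fromBlocks_mulVec,
    Function.comp_apply, finSumFinEquiv_symm_apply_natAdd, Sum.elim_inr, Pi.add_apply,
    Matrix.zero_mulVec, Pi.zero_apply, add_zero, Matrix.one_mulVec]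
  simp

theorem RR_mulVec_append (n : Fin m → ℤ) (x y : Fin m → ℤ) :
    RR n *ᵥ (Fin.append x y) = Fin.append (fun j => n j * y j) x := by
  have h0 : (RR n).map (Int.cast : ℤ → ℤ) = RR n := by
    ext i j; simp
  funext i
  refine Fin.addCases (fun j => ?_) (fun j => ?_) i
  · have h := RR_mulVec_left n (Fin.append x y) j
    rw [h0] at h
    rw [h, Fin.append_left, Fin.append_right]
    simp
  · have h := RR_mulVec_right n (Fin.append x y) j
    rw [h0] at h
    rw [h, Fin.append_left, Fin.append_right]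

/-- `RR n` is expanding when all `n j ≥ 2`. -/
theorem expanding (n : Fin m → ℤ) (hn : ∀ j, 2 ≤ n j) (z : ℂ)
    (hz : ((RR n).map (Int.cast : ℤ → ℂ)).charpoly.IsRoot z) : 1 < ‖z‖ := by
  rw [Polynomial.IsRoot, Matrix.eval_charpoly] at hz
  obtain ⟨v, hv0, hv⟩ := Matrix.exists_mulVec_eq_zero_iff.2 hz
  have hM : (RR n).map (Int.cast : ℤ → ℂ) *ᵥ v = z • v := by
    rw [Matrix.sub_mulVec, sub_eq_zero] at hv
    rw [← hv]
    ext i
    simp [Matrix.scalar_apply, Matrix.mulVec_diagonal]
  have hl : ∀ j : Fin m, (n j : ℂ) * v (Fin.natAdd m j) = z * v (Fin.castAdd m j) := by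
    intro j
    rw [← RR_mulVec_left n v j, hM]
    rfl
  have hr : ∀ j : Fin m, v (Fin.castAdd m j) = z * v (Fin.natAdd m j) := by
    intro j
    rw [← RR_mulVec_right n v j, hM]
    rfl
  have hex : ∃ j : Fin m, v (Fin.natAdd m j) ≠ 0 := by
    by_contra hcon
    push Not at hcon
    apply hv0
    funext i
    refine Fin.addCases (fun j => ?_) (fun j => ?_) i
    · rw [hr j, hcon j, mul_zero]; rfl
    · rw [hcon j]; rfl
  obtain ⟨j, hj⟩ := hex
  have h2 : (n j : ℂ) = z ^ 2 := by
    have := hl j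
    rw [hr j] at this
    have h3 : ((n j : ℂ) - z ^ 2) * v (Fin.natAdd m j) = 0 := by
      linear_combination this
    rcases mul_eq_zero.1 h3 with h4 | h4
    · linear_combination h4
    · exact absurd h4 hj
  have h3 : ‖z‖ ^ 2 = (n j : ℝ) := by
    rw [← norm_pow, ← h2]
    have h5 : (0 : ℝ) ≤ (n j : ℝ) := by exact_mod_cast (by have := hn j; omega : (0:ℤ) ≤ n j)
    have h6 : ((n j : ℤ) : ℂ) = (((n j : ℝ)) : ℂ) := by push_cast; rfl
    rw [h6, Complex.norm_real, Real.norm_eq_abs, abs_of_nonneg h5]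
  have h4 : (2 : ℝ) ≤ (n j : ℝ) := by exact_mod_cast hn j
  by_contra hcon
  push Not at hcon
  have h7 : ‖z‖ ^ 2 ≤ 1 := by
    have := norm_nonneg z
    nlinarith
  linarith

/-- the absolute value of the determinant of `RR n` -/
theorem abs_det (n : Fin m → ℤ) : |(RR n).det| = |∏ j, n j| := by
  have h1 : RR n * RR n = Matrix.reindex finSumFinEquiv finSumFinEquiv
      (Matrix.fromBlocks (Matrix.diagonal n) 0 0 (Matrix.diagonal n)) := by
    unfold RR
    rw [Matrix.reindex_apply, Matrix.reindex_apply, Matrix.submatrix_mul_equiv,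
      Matrix.fromBlocks_multiply]
    simp
  have h2 : (RR n).det * (RR n).det = (∏ j, n j) * (∏ j, n j) := by
    rw [← Matrix.det_mul, h1, Matrix.det_reindex_self, Matrix.det_fromBlocks_zero₁₂,
      Matrix.det_diagonal]
  rw [← sq, ← sq] at h2
  exact (sq_eq_sq_iff_abs_eq_abs _ _).1 h2

variable {P : Type*} [Fintype P] {u f : P → Fin m → ℤ}

omit [Fintype P] in
theorem dg_injective (huinj : Function.Injective u) : Function.Injective (dg u f) := by
  intro p q hpq
  apply huinj
  funext j
  have := congrFun hpq (Fin.castAdd m j)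
  unfold dg at this
  rwa [Fin.append_left, Fin.append_left] at this

theorem card_BB (huinj : Function.Injective u) : (BB u f).card = Fintype.card P := by
  unfold BB
  rw [Finset.card_image_of_injective _ (dg_injective huinj), Finset.card_univ]

/-- simple digits -/
theorem simple_digits (n : Fin m → ℤ) (huinj : Function.Injective u)
    (hu : ∀ p j, 0 ≤ u p j ∧ u p j < n j) :
    ∀ b ∈ BB u f, ∀ b' ∈ BB u f, b ≠ b' →
      ¬ ∃ v : Fin (m + m) → ℤ, RR n *ᵥ v = b - b' := by
  rintro b hb b' hb' hne ⟨v, hv⟩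
  unfold BB at hb hb'
  rw [Finset.mem_image] at hb hb'
  obtain ⟨p, -, rfl⟩ := hb
  obtain ⟨p', -, rfl⟩ := hb'
  apply hne
  have : u p = u p' := by
    funext j
    have h0 : (RR n).map (Int.cast : ℤ → ℤ) = RR n := by
      ext i j; simp
    have h1 := congrFun hv (Fin.castAdd m j)
    have h2 := RR_mulVec_left n v j
    rw [h0] at h2
    rw [h2, Pi.sub_apply] at h1
    unfold dg at h1
    rw [Fin.append_left, Fin.append_left] at h1
    have h3 := hu p j
    have h4 := hu p' j
    have h5 : (n j) ∣ u p j - u p' j := ⟨v (Fin.natAdd m j), by rw [← h1]; simp⟩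
    have h6 : |u p j - u p' j| < n j := by
      rw [abs_lt]
      constructor <;> linarith [h3.1, h3.2, h4.1, h4.2]
    have := Int.eq_zero_of_abs_lt_dvd h5 h6
    linarith
  rw [huinj this]

end Pool.Agent.W646.Sp
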